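import Mathlib

set_option autoImplicit false

namespace Pool.Agent.Results.MP_1cb079_al.WeakCancellation

open scoped commutatorElement

/-- If the commutator `⁅A, B⁆` commutes with `B`, then `A B^m A⁻¹ = ⁅A, B⁆^m B^m`. -/
lemma conj_pow_eq {Q : Type*} [Group Q] (A B : Q) (hC : Commute ⁅A, B⁆ B) (m : ℕ) :
    A * B ^ m * A⁻¹ = ⁅A, B⁆ ^ m * B ^ m := by
  have h1 : A * B ^ m * A⁻¹ = (A * B * A⁻¹) ^ m := by rw [conj_pow]
  have h2 : A * B * A⁻¹ = ⁅A, B⁆ * B := by simp [commutatorElement_def]
  rw [h1, h2, hC.mul_pow]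

/-- In a group generated by a set `S` of elements with central `n`-th power, the `n`-th power of
an element of `γ_{k+2}` lies in `γ_{k+3}` (indices shifted: here the series starts at `0`). -/
lemma pow_mem_lcs {H : Type*} [Group H] (S : Set H) (hS : Subgroup.closure S = ⊤) (n : ℕ)
    (hn : ∀ s ∈ S, ∀ g : H, Commute (s ^ n) g) (k : ℕ) (h : H)
    (hh : h ∈ Subgroup.lowerCentralSeries (⊤ : Subgroup H) (k + 1)) :
    h ^ n ∈ Subgroup.lowerCentralSeries (⊤ : Subgroup H) (k + 2) := by
  set N : Subgroup H := Subgroup.lowerCentralSeries (⊤ : Subgroup H) (k + 2) with hN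
  have hcen : ∀ a ∈ Subgroup.lowerCentralSeries (⊤ : Subgroup H) (k + 1), ∀ g : H,
      Commute (QuotientGroup.mk' N a) (QuotientGroup.mk' N g) := by
    intro a ha g
    have : ⁅a, g⁆ ∈ N := by
      rw [hN, Subgroup.lowerCentralSeries_succ]
      exact Subgroup.commutator_mem_commutator ha (Subgroup.mem_top g)
    have h1 : QuotientGroup.mk' N ⁅a, g⁆ = 1 := by
      rwa [← MonoidHom.mem_ker, QuotientGroup.ker_mk']
    rw [map_commutatorElement, commutatorElement_eq_one_iff_commute] at h1
    exact h1
  have hpow : ∀ a ∈ Subgroup.lowerCentralSeries (⊤ : Subgroup H) k, ∀ g : H,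
      (QuotientGroup.mk' N ⁅a, g⁆) ^ n = 1 := by
    intro a ha g
    have hcomm : ∀ g : H, ⁅a, g⁆ ∈ Subgroup.lowerCentralSeries (⊤ : Subgroup H) (k + 1) := by
      intro g
      rw [Subgroup.lowerCentralSeries_succ]
      exact Subgroup.commutator_mem_commutator ha (Subgroup.mem_top g)
    have hg : g ∈ Subgroup.closure S := by rw [hS]; exact Subgroup.mem_top g
    induction hg using Subgroup.closure_induction with
    | mem s hs =>
      have h1 := conj_pow_eq (QuotientGroup.mk' N a) (QuotientGroup.mk' N s)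
        (by rw [← map_commutatorElement]; exact hcen _ (hcomm s) s) n
      have h2 : Commute ((QuotientGroup.mk' N s) ^ n) (QuotientGroup.mk' N a) := by
        rw [← map_pow]
        exact (hn s hs a).map (QuotientGroup.mk' N)
      rw [← h2.eq, mul_inv_cancel_right] at h1
      rw [map_commutatorElement]
      have h3 : ⁅QuotientGroup.mk' N a, QuotientGroup.mk' N s⁆ ^ n * (QuotientGroup.mk' N s) ^ n =
          1 * (QuotientGroup.mk' N s) ^ n := by rw [← h1, one_mul]
      exact mul_right_cancel h3
    | one => simp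
    | mul x y _ _ hx hy =>
      have h1 : ⁅a, x * y⁆ = ⁅a, x⁆ * (x * ⁅a, y⁆ * x⁻¹) := by
        simp only [commutatorElement_def]; group
      have h2 : QuotientGroup.mk' N (x * ⁅a, y⁆ * x⁻¹) = QuotientGroup.mk' N ⁅a, y⁆ := by
        rw [map_mul, map_mul, map_inv, ← (hcen _ (hcomm y) x).eq, mul_inv_cancel_right]
      rw [h1, map_mul, h2, (hcen _ (hcomm x) ⁅a, y⁆).mul_pow, hx, hy, one_mul]
    | inv x _ hx =>
      have h1 : ⁅a, x⁻¹⁆ = x⁻¹ * ⁅a, x⁆⁻¹ * x := by
        simp only [commutatorElement_def]; group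
      have h2 : QuotientGroup.mk' N (x⁻¹ * ⁅a, x⁆⁻¹ * x) = (QuotientGroup.mk' N ⁅a, x⁆)⁻¹ := by
        rw [map_mul, map_mul, map_inv, map_inv]
        have := ((hcen _ (hcomm x) x).inv_left).eq
        rw [mul_assoc, this, inv_mul_cancel_left]
      rw [h1, h2, inv_pow, hx, inv_one]
  have hfin : ∀ x ∈ Subgroup.lowerCentralSeries (⊤ : Subgroup H) (k + 1),
      (QuotientGroup.mk' N x) ^ n = 1 := by
    intro x hx
    rw [Subgroup.mem_lowerCentralSeries_succ_iff] at hx
    induction hx using Subgroup.closure_induction with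
    | mem x hx =>
      obtain ⟨a, ha, g, -, rfl⟩ := hx
      exact hpow a ha g
    | one => simp
    | mul x y hx hy hx' hy' =>
      rw [map_mul, (hcen x ((Subgroup.mem_lowerCentralSeries_succ_iff _ _ _).2 hx) y).mul_pow, hx', hy',
        one_mul]
    | inv x _ hx => rw [map_inv, inv_pow, hx, inv_one]
  have := hfin h hh
  rw [← map_pow] at this
  rwa [← MonoidHom.mem_ker, QuotientGroup.ker_mk'] at this

/-- Hence elements of the commutator subgroup have bounded exponent in the nilpotent case. -/
lemma commutator_pow_eq_one {H : Type*} [Group H] (S : Set H) (hS : Subgroup.closure S = ⊤) (n : ℕ)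
    (hn : ∀ s ∈ S, ∀ g : H, Commute (s ^ n) g) (c : ℕ)
    (hc : Subgroup.lowerCentralSeries (⊤ : Subgroup H) c = ⊥) (h : H) (hh : h ∈ commutator H) :
    h ^ n ^ c = 1 := by
  have key : ∀ j, h ^ n ^ j ∈ Subgroup.lowerCentralSeries (⊤ : Subgroup H) (j + 1) := by
    intro j
    induction j with
    | zero =>
      rw [pow_zero, pow_one, zero_add, Subgroup.top_lowerCentralSeries_one]
      exact hh
    | succ j ih =>
      rw [pow_succ, pow_mul]
      exact pow_mem_lcs S hS n hn j _ ih
  have h1 := Subgroup.lowerCentralSeries_antitone (⊤ : Subgroup H) (Nat.le_succ c) (key c)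
  rw [hc] at h1
  exact Subgroup.mem_bot.1 h1

/-- **Quantitative uniqueness of roots**: in a nilpotent group whose `c`-th lower central term is
trivial, `x ^ n = y ^ n` forces `(x⁻¹ * y) ^ (n * n ^ c) = 1`. -/
lemma root_quotient {G : Type*} [Group G] (c : ℕ)
    (hc : Subgroup.lowerCentralSeries (⊤ : Subgroup G) c = ⊥) (n : ℕ) (x y : G) (hxy : x ^ n = y ^ n) :
    (x⁻¹ * y) ^ (n * n ^ c) = 1 := by
  let K : Set G := {x, y}
  let H : Subgroup G := Subgroup.closure K
  have hx : x ∈ H := Subgroup.subset_closure (by simp [K])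
  have hy : y ∈ H := Subgroup.subset_closure (by simp [K])
  have hcen : ∀ g ∈ H, Commute (x ^ n) g := by
    intro g hg
    induction hg using Subgroup.closure_induction with
    | mem g hg =>
      rcases hg with rfl | hg
      · exact (Commute.refl g).pow_left n
      · rw [Set.mem_singleton_iff] at hg
        rw [hg, hxy]
        exact (Commute.refl y).pow_left n
    | one => exact Commute.one_right _
    | mul a b _ _ ha hb => exact ha.mul_right hb
    | inv a _ ha => exact ha.inv_right
  have hcH : Subgroup.lowerCentralSeries (⊤ : Subgroup H) c = ⊥ := by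
    rw [← Subgroup.map_subtype_inj, Subgroup.map_bot, Subgroup.top_subtype_lowerCentralSeries, eq_bot_iff, ← hc]
    exact Subgroup.lowerCentralSeries_mono c le_top
  have hgen : ∀ s ∈ ((↑) ⁻¹' K : Set H), ∀ g : H, Commute (s ^ n) g := by
    intro s hs g
    have hs' : (s : G) ^ n = x ^ n := by
      rcases hs with h | h
      · rw [h]
      · rw [Set.mem_singleton_iff] at h
        rw [h, hxy]
    have : Commute ((s : G) ^ n) (g : G) := by
      rw [hs']
      exact hcen g g.2
    exact Subtype.ext this.eq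
  let x' : H := ⟨x, hx⟩
  let y' : H := ⟨y, hy⟩
  have hmem : (x'⁻¹ * y') ^ n ∈ commutator H := by
    rw [← Abelianization.ker_of, MonoidHom.mem_ker, map_pow, map_mul, map_inv, mul_pow, inv_pow,
      ← map_pow, ← map_pow]
    have : x' ^ n = y' ^ n := Subtype.ext hxy
    rw [this, inv_mul_cancel]
  have h1 := commutator_pow_eq_one _ (Subgroup.closure_closure_coe_preimage (k := K)) n hgen c hcH _ hmem
  rw [← pow_mul] at h1
  exact congrArg Subtype.val h1

/-- **Every nilpotent almost torsion-free group satisfies the Weak Cancellation Law.**  If `G` is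
a nilpotent group such that `G[n] = {g | g ^ n = 1}` is finite for every `n > 0`, then for every
`n > 0` every fibre `{x | x ^ n = y}` of the `n`-th power map is finite. -/
theorem result (G : Type*) [Group G] [Group.IsNilpotent G]
    (hG : ∀ n : ℕ, 0 < n → {g : G | g ^ n = 1}.Finite) :
    ∀ n : ℕ, 0 < n → ∀ y : G, {x : G | x ^ n = y}.Finite := by
  intro n hn y
  obtain ⟨c, hc⟩ := Subgroup.nilpotent_iff_lowerCentralSeries.1 (inferInstance : Group.IsNilpotent G)
  rcases Set.eq_empty_or_nonempty {x : G | x ^ n = y} with h | ⟨x₀, hx₀⟩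
  · rw [h]; exact Set.finite_empty
  · have hfin := hG (n * n ^ c) (by positivity)
    refine (hfin.image (fun g => x₀ * g)).subset ?_
    intro x hx
    have hxx : x₀ ^ n = x ^ n := by
      have h1 : x₀ ^ n = y := hx₀
      have h2 : x ^ n = y := hx
      rw [h1, h2]
    refine ⟨x₀⁻¹ * x, root_quotient c hc n x₀ x hxx, ?_⟩
    simp

end Pool.Agent.Results.MP_1cb079_al.WeakCancellation
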